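import Pool.Agent.H474.RZ.Stm

set_option autoImplicit false

open Complex MeasureTheory Filter Topology
open Pool.Agent.H474.RZ

namespace Pool.Agent.H100.RZ.ODD

/-- the set of the points in a punctured neighbourhood of which `Q` holds is open -/
theorem isOpen_ev (Q : ℝ → Prop) : IsOpen {x : ℝ | ∀ᶠ y in 𝓝[≠] x, Q y} := by
  rw [isOpen_iff_mem_nhds]
  intro x hx
  have hx1 : ∀ᶠ y in 𝓝[≠] x, Q y := hx
  rw [eventually_nhdsWithin_iff] at hx1
  obtain ⟨U, hU, hUo, hxU⟩ := eventually_nhds_iff.1 hx1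
  refine mem_of_superset (hUo.mem_nhds hxU) ?_
  intro z hz
  show ∀ᶠ y in 𝓝[≠] z, Q y
  rw [eventually_nhdsWithin_iff]
  by_cases hzx : z = x
  · rw [hzx]
    exact hx1
  · have h1 : U ∩ {x}ᶜ ∈ 𝓝 z := (hUo.inter isOpen_compl_singleton).mem_nhds ⟨hz, hzx⟩
    filter_upwards [h1] with y hy _
    exact hU y hy.1 hy.2

theorem t_ODD : S_ODD := by
  intro f hf him a b hab hsign
  by_contra hno
  push Not at hno
  have hcont : Continuous fun x : ℝ => (f x).re :=
    Complex.continuous_re.comp (hf.continuous.comp Complex.continuous_ofReal)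
  have hfa : f a ≠ 0 := by
    intro h0
    rw [h0] at hsign
    simp at hsign
  have hfb : f b ≠ 0 := by
    intro h0
    rw [h0] at hsign
    simp at hsign
  -- the orders are finite
  have hord : ∀ z : ℂ, analyticOrderAt f z ≠ ⊤ := by
    intro z htop
    have h1 : AnalyticOnNhd ℂ f Set.univ := fun w _ => hf.analyticAt w
    rw [analyticOrderAt_eq_top] at htop
    have h2 := h1.eqOn_zero_of_preconnected_of_eventuallyEq_zero isPreconnected_univ
      (Set.mem_univ z) htop
    exact hfa (h2 (Set.mem_univ _))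
  have hcover : Set.Icc a b ⊆ {x : ℝ | ∀ᶠ y : ℝ in 𝓝[≠] x, 0 < (f y).re} ∪
      {x : ℝ | ∀ᶠ y : ℝ in 𝓝[≠] x, (f y).re < 0} := by
    intro x hx
    by_cases h0 : (f x).re = 0
    · have hfx : f x = 0 := Complex.ext h0 (him x)
      have hxa : a < x := lt_of_le_of_ne hx.1 (by rintro rfl; exact hfa hfx)
      have hxb : x < b := lt_of_le_of_ne hx.2 (by rintro rfl; exact hfb hfx)
      have heven : Even (analyticOrderNatAt f (x : ℂ)) := Nat.not_odd_iff_even.1 (hno x hxa hxb hfx)
      obtain ⟨g, hg, hg0, hfg⟩ := (hf.analyticAt (x : ℂ)).analyticOrderAt_ne_top.1 (hord x)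
      obtain ⟨n, hn⟩ : ∃ n : ℕ, n = analyticOrderNatAt f (x : ℂ) := ⟨_, rfl⟩
      rw [← hn] at heven hfg
      have h1 : ∀ᶠ y : ℝ in 𝓝[≠] x, f y = ((y : ℂ) - x) ^ n • g y :=
        ((Complex.continuous_ofReal.tendsto x).eventually hfg).filter_mono nhdsWithin_le_nhds
      have h2 : ∀ᶠ y : ℝ in 𝓝[≠] x, y ≠ x := eventually_mem_nhdsWithin
      have h3 : ∀ᶠ y : ℝ in 𝓝[≠] x, 0 < (y - x) ^ n ∧ (g y).im = 0 ∧
          (f y).re = (y - x) ^ n * (g y).re := by
        filter_upwards [h1, h2] with y hy1 hy2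
        have h4 : 0 < (y - x) ^ n := heven.pow_pos (sub_ne_zero.2 hy2)
        have h5 : f y = (((y - x) ^ n : ℝ) : ℂ) * g y := by
          rw [hy1, smul_eq_mul]
          push_cast
          rfl
        refine ⟨h4, ?_, ?_⟩
        · have h6 := him y
          rw [h5, Complex.im_ofReal_mul] at h6
          exact (mul_eq_zero.1 h6).resolve_left h4.ne'
        · rw [h5, Complex.re_ofReal_mul]
      -- `g x` is real
      have hgt : Tendsto (fun y : ℝ => g y) (𝓝 x) (𝓝 (g x)) :=
        hg.continuousAt.tendsto.comp (Complex.continuous_ofReal.tendsto x)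
      have hgim : (g x).im = 0 := by
        have h4 : Tendsto (fun y : ℝ => (g y).im) (𝓝[≠] x) (𝓝 (g x).im) :=
          ((Complex.continuous_im.tendsto _).comp hgt).mono_left nhdsWithin_le_nhds
        have h5 : Tendsto (fun y : ℝ => (g y).im) (𝓝[≠] x) (𝓝 0) := by
          refine Tendsto.congr' ?_ tendsto_const_nhds
          filter_upwards [h3] with y hy
          exact hy.2.1.symm
        exact tendsto_nhds_unique h4 h5
      have hgre : (g x).re ≠ 0 := fun h4 => hg0 (Complex.ext h4 hgim)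
      have h6 : Tendsto (fun y : ℝ => (g y).re) (𝓝[≠] x) (𝓝 (g x).re) :=
        ((Complex.continuous_re.tendsto _).comp hgt).mono_left nhdsWithin_le_nhds
      rcases lt_or_gt_of_ne hgre with h7 | h7
      · right
        show ∀ᶠ y : ℝ in 𝓝[≠] x, (f y).re < 0
        filter_upwards [h3, h6.eventually (gt_mem_nhds h7)] with y hy1 hy2
        rw [hy1.2.2]
        exact mul_neg_of_pos_of_neg hy1.1 hy2
      · left
        show ∀ᶠ y : ℝ in 𝓝[≠] x, 0 < (f y).re
        filter_upwards [h3, h6.eventually (lt_mem_nhds h7)] with y hy1 hy2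
        rw [hy1.2.2]
        exact mul_pos hy1.1 hy2
    · rcases lt_or_gt_of_ne h0 with h1 | h1
      · right
        exact (hcont.continuousAt.tendsto.eventually (gt_mem_nhds h1)).filter_mono
          nhdsWithin_le_nhds
      · left
        exact (hcont.continuousAt.tendsto.eventually (lt_mem_nhds h1)).filter_mono
          nhdsWithin_le_nhds
  have hdisj : Disjoint {x : ℝ | ∀ᶠ y : ℝ in 𝓝[≠] x, 0 < (f y).re}
      {x : ℝ | ∀ᶠ y : ℝ in 𝓝[≠] x, (f y).re < 0} := by
    rw [Set.disjoint_left]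
    intro x h1 h2
    have h1' : ∀ᶠ y : ℝ in 𝓝[≠] x, 0 < (f y).re := h1
    have h2' : ∀ᶠ y : ℝ in 𝓝[≠] x, (f y).re < 0 := h2
    obtain ⟨y, hy1, hy2⟩ := (h1'.and h2').exists
    exact lt_asymm hy1 hy2
  -- near the end points
  have hend : ∀ x : ℝ, (∀ᶠ y : ℝ in 𝓝[≠] x, 0 < (f y).re) → 0 ≤ (f x).re := by
    intro x hx
    have h1 : Tendsto (fun y : ℝ => (f y).re) (𝓝[≠] x) (𝓝 (f x).re) :=
      hcont.continuousAt.tendsto.mono_left nhdsWithin_le_nhds
    exact ge_of_tendsto h1 (hx.mono fun y hy => hy.le)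
  have hend' : ∀ x : ℝ, (∀ᶠ y : ℝ in 𝓝[≠] x, (f y).re < 0) → (f x).re ≤ 0 := by
    intro x hx
    have h1 : Tendsto (fun y : ℝ => (f y).re) (𝓝[≠] x) (𝓝 (f x).re) :=
      hcont.continuousAt.tendsto.mono_left nhdsWithin_le_nhds
    exact le_of_tendsto h1 (hx.mono fun y hy => hy.le)
  have ha : a ∈ Set.Icc a b := ⟨le_refl a, hab.le⟩
  have hb : b ∈ Set.Icc a b := ⟨hab.le, le_refl b⟩
  rcases IsPreconnected.subset_or_subset (isOpen_ev _) (isOpen_ev _) hdisj hcover
    isPreconnected_Icc with h1 | h1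
  · have h2 := hend a (h1 ha)
    have h3 := hend b (h1 hb)
    have h4 := mul_nonneg h2 h3
    linarith
  · have h2 := hend' a (h1 ha)
    have h3 := hend' b (h1 hb)
    have h4 := mul_nonneg_of_nonpos_of_nonpos h2 h3
    linarith

end Pool.Agent.H100.RZ.ODD
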